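import Pool.Agent.D0H24.BG.Rank

/-!
Families of vectors with pairwise small inner products are finite; finitely many vectors detect all.
-/

set_option autoImplicit false

namespace Pool.Agent.D0H24.BG

open Finset

/-- a family of vectors with pairwise inner products at most `t` times the lengths is small -/
theorem many_t {J K : Type} [Fintype J] [Fintype K] (v : J → K → ℝ)
    (hv : ∀ i, 0 < ∑ k, v i k * v i k) (t : ℝ) (ht : 0 ≤ t)
    (hJ : 2 < (Fintype.card J : ℝ) * (1 / (Fintype.card K : ℝ) - t - t ^ 2)) :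
    ∃ i j, i ≠ j ∧ t * √((∑ k, v i k * v i k) * ∑ k, v j k * v j k) < ∑ k, v i k * v j k := by
  classical
  by_contra hcon
  push Not at hcon
  have hN : (0 : ℝ) < Fintype.card J := by
    rcases Nat.eq_zero_or_pos (Fintype.card J) with h | h
    · rw [h] at hJ
      norm_num at hJ
    · exact_mod_cast h
  have h := share_gram (fun _ : J => 1 / (Fintype.card J : ℝ)) (fun _ => by positivity) (by
    rw [Finset.sum_const, Finset.card_univ, nsmul_eq_mul, mul_one_div, div_self hN.ne'])
    v hv (fun _ => 0) t ht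
  have h1 : ∀ i, ∑ j, (if t * √((∑ k, v i k * v i k) * ∑ k, v j k * v j k) < ∑ k, v i k * v j k
      then 1 / (Fintype.card J : ℝ) * (1 / (Fintype.card J : ℝ)) else 0) ≤
      1 / (Fintype.card J : ℝ) * (1 / (Fintype.card J : ℝ)) := by
    intro i
    rw [Finset.sum_eq_single i]
    · split_ifs
      · exact le_rfl
      · positivity
    · intro j _ hji
      rw [if_neg]
      rw [not_lt]
      exact hcon i j (Ne.symm hji)
    · intro h'
      exact absurd (Finset.mem_univ i) h'
  have h0 := h.trans (Finset.sum_le_sum (fun i _ => h1 i))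
  simp only [mul_zero, Finset.sum_const_zero, zero_div] at h0
  have h2 : (Fintype.card J : ℝ) * (1 / (Fintype.card J : ℝ) * (1 / (Fintype.card J : ℝ))) =
      1 / (Fintype.card J : ℝ) := by
    field_simp
  have h2' : ∑ _i : J, 1 / (Fintype.card J : ℝ) * (1 / (Fintype.card J : ℝ)) =
      1 / (Fintype.card J : ℝ) := by
    rw [Finset.sum_const, Finset.card_univ, nsmul_eq_mul]
    exact h2
  rw [h2'] at h0
  have h3 : (Fintype.card J : ℝ) * ((0 ^ 2 + 1 / (Fintype.card K : ℝ) - t - t ^ 2) / 2) ≤
      (Fintype.card J : ℝ) * (1 / (Fintype.card J : ℝ)) := mul_le_mul_of_nonneg_left h0 hN.le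
  rw [mul_one_div, div_self hN.ne'] at h3
  nlinarith

/-- finitely many vectors detect all vectors -/
theorem caps {X : Type*} {K : Type} [Fintype K] (v : X → K → ℝ) (t : ℝ) (ht : 0 ≤ t) (m0 : ℕ)
    (hm : 2 < ((m0 : ℝ) + 1) * (1 / (Fintype.card K : ℝ) - t - t ^ 2)) :
    ∃ m ≤ m0, ∃ x : Fin m → X, (∀ a, 0 < ∑ k, v (x a) k * v (x a) k) ∧
      ∀ y, 0 < ∑ k, v y k * v y k → ∃ a,
        t * √((∑ k, v y k * v y k) * ∑ k, v (x a) k * v (x a) k) < ∑ k, v y k * v (x a) k := by
  by_contra hcon
  push Not at hcon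
  have key : ∀ m, m ≤ m0 + 1 → ∃ x : Fin m → X, (∀ a, 0 < ∑ k, v (x a) k * v (x a) k) ∧
      ∀ a b, a ≠ b → ∑ k, v (x a) k * v (x b) k ≤
        t * √((∑ k, v (x a) k * v (x a) k) * ∑ k, v (x b) k * v (x b) k) := by
    intro m
    induction m with
    | zero => exact fun _ => ⟨fun a => a.elim0, fun a => a.elim0, fun a => a.elim0⟩
    | succ m ih =>
      intro hm'
      obtain ⟨x, h1, h2⟩ := ih (by omega)
      obtain ⟨y, h3, h4⟩ := hcon m (by omega) x h1
      refine ⟨Fin.cons y x, ?_, ?_⟩
      · intro a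
        refine Fin.cases ?_ (fun a => ?_) a
        · simpa using h3
        · simpa using h1 a
      · intro a b
        refine Fin.cases ?_ (fun a => ?_) a
        · refine Fin.cases ?_ (fun b => ?_) b
          · intro h
            exact absurd rfl h
          · intro _
            simpa using h4 b
        · refine Fin.cases ?_ (fun b => ?_) b
          · intro _
            have h5 := h4 a
            have e1 : ∑ k, v (x a) k * v y k = ∑ k, v y k * v (x a) k :=
              Finset.sum_congr rfl (fun k _ => mul_comm _ _)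
            simp only [Fin.cons_succ, Fin.cons_zero]
            rw [e1, mul_comm (∑ k, v (x a) k * v (x a) k)]
            exact h5
          · intro h
            have h6 : a ≠ b := fun h' => h (by rw [h'])
            simpa using h2 a b h6
  obtain ⟨x, h1, h2⟩ := key (m0 + 1) le_rfl
  obtain ⟨i, j, hij, h3⟩ := many_t (fun a => v (x a)) h1 t ht (by
    rw [Fintype.card_fin]
    push_cast
    exact hm)
  exact absurd (h2 i j hij) (not_le.2 h3)

/-- `3 r` vectors, with a lower bound `1 / (4 r)` -/
theorem caps3 {X : Type*} {K : Type} [Fintype K] [Nonempty K] (v : X → K → ℝ) :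
    ∃ m ≤ 3 * Fintype.card K, ∃ x : Fin m → X, (∀ a, 0 < ∑ k, v (x a) k * v (x a) k) ∧
      ∀ y, 0 < ∑ k, v y k * v y k → ∃ a,
        1 / (4 * (Fintype.card K : ℝ)) * √((∑ k, v y k * v y k) * ∑ k, v (x a) k * v (x a) k) <
          ∑ k, v y k * v (x a) k := by
  have hr : (1 : ℝ) ≤ Fintype.card K := by exact_mod_cast Fintype.card_pos
  have hr0 : (0 : ℝ) < Fintype.card K := by linarith
  refine caps v _ (by positivity) _ ?_
  push_cast
  have h1 : ((3 * (Fintype.card K : ℝ)) + 1) * (1 / (Fintype.card K : ℝ) -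
      1 / (4 * (Fintype.card K : ℝ)) - (1 / (4 * (Fintype.card K : ℝ))) ^ 2) =
      2 + (4 * (Fintype.card K : ℝ) ^ 2 + 9 * Fintype.card K - 1) /
        (16 * (Fintype.card K : ℝ) ^ 2) := by
    field_simp
    ring
  rw [h1]
  have h2 : 0 < (4 * (Fintype.card K : ℝ) ^ 2 + 9 * Fintype.card K - 1) /
        (16 * (Fintype.card K : ℝ) ^ 2) := by
    apply div_pos
    · nlinarith
    · positivity
  linarith

end Pool.Agent.D0H24.BG
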