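import Pool.Agent.D0H24.BG.Rep

/-!
The number of noncrossing partitions of `n` points is at most `4 ^ n`: such a partition is determined by
the smallest and the largest elements of its blocks.
-/

set_option autoImplicit false

namespace Pool.Agent.D0H24.BG

open Pool.Agent.H207R2.BL

/-- `j` is the last element before `i` in the block of `i` -/
def Pred {n : ℕ} (ρ : Setoid (Fin n)) (i j : Fin n) : Prop :=
  j < i ∧ ρ j i ∧ ∀ k, j < k → k < i → ¬ ρ k i

theorem exists_pred {n : ℕ} (ρ : Setoid (Fin n)) (i : Fin n) (h : ∃ j, j < i ∧ ρ j i) :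
    ∃ j, Pred ρ i j := by
  classical
  obtain ⟨j0, hj0⟩ := h
  obtain ⟨j, hj, hmax⟩ := (Finset.univ.filter (fun j => j < i ∧ ρ j i)).exists_max_image
    (fun j => j) ⟨j0, by simpa using hj0⟩
  rw [Finset.mem_filter] at hj
  refine ⟨j, hj.2.1, hj.2.2, ?_⟩
  intro k hk hk' hki
  have := hmax k (by simpa using ⟨hk', hki⟩)
  exact absurd hk (not_lt.2 this)

/-- the next element -/
theorem exists_next {n : ℕ} (ρ : Setoid (Fin n)) (j : Fin n) (h : ∃ k, j < k ∧ ρ j k) :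
    ∃ k, Pred ρ k j := by
  classical
  obtain ⟨k0, hk0⟩ := h
  obtain ⟨k, hk, hmin⟩ := (Finset.univ.filter (fun k => j < k ∧ ρ j k)).exists_min_image
    (fun k => k) ⟨k0, by simpa using hk0⟩
  rw [Finset.mem_filter] at hk
  refine ⟨k, hk.2.1, hk.2.2, ?_⟩
  intro l hl hl' hlk
  have := hmin l (by simpa using ⟨hl, ρ.trans hk.2.2 (ρ.symm hlk)⟩)
  exact absurd hl' (not_lt.2 this)

theorem step {n : ℕ} (ρ σ : Setoid (Fin n)) (hρ : NonCrossing ρ)
    (hmax : ∀ x, (∃ y, x < y ∧ σ x y) → ∃ y, x < y ∧ ρ x y) (i : Fin n)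
    (ih : ∀ k, k < i → ∀ j, Pred ρ k j → Pred σ k j) (j j' : Fin n) (h : Pred ρ i j)
    (h' : Pred σ i j') : ¬ j < j' := by
  intro hlt
  obtain ⟨k, hk⟩ := exists_next ρ j' (hmax j' ⟨i, h'.1, h'.2.1⟩)
  rcases lt_trichotomy k i with hki | hki | hki
  · have h1 := ih k hki j' hk
    have h2 : σ k i := σ.trans (σ.symm h1.2.1) h'.2.1
    exact h'.2.2 k h1.1 hki h2
  · rw [hki] at hk
    exact h.2.2 j' hlt h'.1 hk.2.1
  · have h1 := hρ j j' i k hlt h'.1 hki h.2.1 hk.2.1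
    exact h.2.2 j' hlt h'.1 (ρ.trans (ρ.symm h1) h.2.1)

theorem pred_eq {n : ℕ} (ρ σ : Setoid (Fin n)) (hρ : NonCrossing ρ) (hσ : NonCrossing σ)
    (hmin : ∀ x, (∃ y, y < x ∧ ρ y x) ↔ ∃ y, y < x ∧ σ y x)
    (hmax : ∀ x, (∃ y, x < y ∧ ρ x y) ↔ ∃ y, x < y ∧ σ x y) :
    ∀ i j, Pred ρ i j ↔ Pred σ i j := by
  intro i
  induction i using WellFoundedLT.induction with
  | _ i ih =>
    have key : ∀ j j', Pred ρ i j → Pred σ i j' → j = j' := by
      intro j j' h h'
      refine le_antisymm ?_ ?_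
      · exact not_lt.1 (step σ ρ hσ (fun x => (hmax x).1) i (fun k hk j => (ih k hk j).2) j' j h' h)
      · exact not_lt.1 (step ρ σ hρ (fun x => (hmax x).2) i (fun k hk j => (ih k hk j).1) j j' h h')
    intro j
    constructor
    · intro h
      obtain ⟨j', h'⟩ := exists_pred σ i ((hmin i).1 ⟨j, h.1, h.2.1⟩)
      rw [key j j' h h']
      exact h'
    · intro h
      obtain ⟨j', h'⟩ := exists_pred ρ i ((hmin i).2 ⟨j, h.1, h.2.1⟩)
      rw [← key j' j h' h]
      exact h'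

theorem rel_of_pred {n : ℕ} (ρ σ : Setoid (Fin n)) (h : ∀ i j, Pred ρ i j → Pred σ i j) :
    ∀ j i, i < j → ρ i j → σ i j := by
  intro j
  induction j using WellFoundedLT.induction with
  | _ j ih =>
    intro i hij hr
    obtain ⟨p, hp⟩ := exists_pred ρ j ⟨i, hij, hr⟩
    have h1 := h j p hp
    rcases lt_trichotomy i p with hip | hip | hip
    · exact σ.trans (ih p hp.1 i hip (ρ.trans hr (ρ.symm hp.2.1))) h1.2.1
    · rw [hip]
      exact h1.2.1
    · exact absurd hr (hp.2.2 i hip hij)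

theorem nc_ext {n : ℕ} (ρ σ : Setoid (Fin n)) (hρ : NonCrossing ρ) (hσ : NonCrossing σ)
    (hmin : ∀ x, (∃ y, y < x ∧ ρ y x) ↔ ∃ y, y < x ∧ σ y x)
    (hmax : ∀ x, (∃ y, x < y ∧ ρ x y) ↔ ∃ y, x < y ∧ σ x y) : ρ = σ := by
  have hp := pred_eq ρ σ hρ hσ hmin hmax
  have h1 := rel_of_pred ρ σ (fun i j => (hp i j).1)
  have h2 := rel_of_pred σ ρ (fun i j => (hp i j).2)
  have key : ∀ x y, x < y → (ρ x y ↔ σ x y) := fun x y h => ⟨h1 y x h, h2 y x h⟩
  ext x y
  rcases lt_trichotomy x y with h | h | h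
  · exact key x y h
  · rw [h]
    exact ⟨fun _ => σ.refl y, fun _ => ρ.refl y⟩
  · exact ⟨fun h' => σ.symm ((key y x h).1 (ρ.symm h')), fun h' => ρ.symm ((key y x h).2 (σ.symm h'))⟩

/-- there are at least one and at most `4 ^ n` noncrossing partitions -/
theorem card_ncp (n : ℕ) : 1 ≤ Nat.card (NCP n) ∧ Nat.card (NCP n) ≤ 4 ^ n := by
  have hf := finite_ncp n
  constructor
  · have : Nonempty (NCP n) := ⟨⟨⊥, bot_nc n⟩⟩
    exact Nat.card_pos
  · have hinj : Function.Injective (fun ρ : NCP n =>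
        (({x | ∃ y, y < x ∧ ρ.1 y x}, {x | ∃ y, x < y ∧ ρ.1 x y}) : Set (Fin n) × Set (Fin n))) := by
      intro ρ σ h
      apply Subtype.ext
      have h1 := congrArg Prod.fst h
      have h2 := congrArg Prod.snd h
      refine nc_ext ρ.1 σ.1 ρ.2 σ.2 (fun x => ?_) (fun x => ?_)
      · exact Set.ext_iff.1 h1 x
      · exact Set.ext_iff.1 h2 x
    have h := Nat.card_le_card_of_injective _ hinj
    refine h.trans (le_of_eq ?_)
    rw [Nat.card_prod, Nat.card_eq_fintype_card, Fintype.card_set, Fintype.card_fin, ← mul_pow]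
    norm_num

end Pool.Agent.D0H24.BG
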