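import Pool.Agent.H207R2.BL.Chrom

/-!
Two graphs drawn in a half plane, with the same number of boundary vertices, are glued to a graph drawn in
the plane.
-/

set_option autoImplicit false
set_option linter.unusedSectionVars false

namespace Pool.Agent.D0H24.BG

open Set Pool.Agent.H207R2.BL

/-- interpolation by a strictly increasing continuous function -/
theorem interp (n : ℕ) (y x : ℕ → ℝ) (hy : ∀ i j, i < j → j < n → y i < y j)
    (hx : ∀ i j, i < j → j < n → x i < x j) :
    ∃ ψ : ℝ → ℝ, Continuous ψ ∧ StrictMono ψ ∧ ∀ i, i < n → ψ (y i) = x i := by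
  induction n with
  | zero => exact ⟨id, continuous_id, strictMono_id, fun i hi => absurd hi (Nat.not_lt_zero i)⟩
  | succ n ih =>
    obtain ⟨ψ, h1, h2, h3⟩ := ih (fun i j h h' => hy i j h (by omega))
      (fun i j h h' => hx i j h (by omega))
    rcases n with _ | n
    · refine ⟨fun s => s - y 0 + x 0, by fun_prop, fun s s' h => by simpa using h, ?_⟩
      intro i hi
      have : i = 0 := by omega
      rw [this]
      ring
    · have hyn := hy n (n + 1) (by omega) (by omega)
      have hxn := hx n (n + 1) (by omega) (by omega)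
      set m : ℝ := (x (n + 1) - x n) / (y (n + 1) - y n) with hm
      have hm0 : 0 < m := div_pos (by linarith) (by linarith)
      refine ⟨fun s => ψ (min s (y n)) + m * max (s - y n) 0, ?_, ?_, ?_⟩
      · fun_prop
      · intro s s' h
        change ψ (min s (y n)) + m * max (s - y n) 0 < ψ (min s' (y n)) + m * max (s' - y n) 0
        by_cases hs : s < y n
        · have h4 : min s (y n) < min s' (y n) := by
            rw [min_eq_left hs.le]
            exact lt_min h hs
          have h5 : max (s - y n) 0 ≤ max (s' - y n) 0 := max_le_max (by linarith) le_rfl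
          have h6 := h2 h4
          have h7 := mul_le_mul_of_nonneg_left h5 hm0.le
          linarith
        · push Not at hs
          rw [min_eq_right hs, min_eq_right (hs.trans h.le), max_eq_left (by linarith),
            max_eq_left (by linarith)]
          have h7 := mul_lt_mul_of_pos_left h hm0
          nlinarith
      · intro i hi
        change ψ (min (y i) (y n)) + m * max (y i - y n) 0 = x i
        by_cases hin : i < n + 1
        · have h4 : y i ≤ y n := by
            rcases Nat.lt_or_ge i n with h | h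
            · exact (hy i n h (by omega)).le
            · have : i = n := by omega
              rw [this]
          rw [min_eq_left h4, max_eq_right (by linarith), mul_zero, add_zero]
          exact h3 i hin
        · have h4 : i = n + 1 := by omega
          rw [h4, min_eq_right hyn.le, max_eq_left (by linarith), h3 n (by omega), hm,
            div_mul_cancel₀ _ (sub_ne_zero.2 hyn.ne')]
          ring

theorem glue_drawn {V W : Type} {n : ℕ} (N : SimpleGraph (V ⊕ Fin n)) (M : SimpleGraph (W ⊕ Fin n))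
    (hN : DrawnInHalfPlane N) (hM : DrawnInHalfPlane M) :
    ∃ (f : (V ⊕ W) ⊕ Fin n → ℝ × ℝ) (γ : (V ⊕ W) ⊕ Fin n → (V ⊕ W) ⊕ Fin n → ℝ → ℝ × ℝ),
      IsDrawing (glue N M) f γ := by
  classical
  obtain ⟨f, γ, ⟨hfi, hfe, hfd⟩, hf, hγ, hf0, hfx⟩ := hN
  obtain ⟨f', γ', ⟨hfi', hfe', hfd'⟩, hf', hγ', hf0', hfx'⟩ := hM
  -- the function of the axis
  obtain ⟨ψ, hψc, hψm, hψ⟩ : ∃ ψ : ℝ → ℝ, Continuous ψ ∧ StrictMono ψ ∧
      ∀ i : Fin n, ψ (f' (Sum.inr i)).1 = (f (Sum.inr i)).1 := by
    obtain ⟨ψ, h1, h2, h3⟩ := interp n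
      (fun i => if h : i < n then (f' (Sum.inr ⟨i, h⟩)).1 else 0)
      (fun i => if h : i < n then (f (Sum.inr ⟨i, h⟩)).1 else 0)
      (fun i j hij hj => by
        rw [dif_pos (hij.trans hj), dif_pos hj]
        exact hfx' _ _ hij)
      (fun i j hij hj => by
        rw [dif_pos (hij.trans hj), dif_pos hj]
        exact hfx _ _ hij)
    refine ⟨ψ, h1, h2, fun i => ?_⟩
    have h4 := h3 i.val i.isLt
    rw [dif_pos i.isLt, dif_pos i.isLt] at h4
    exact h4
  let d : ℝ → ℝ := fun x => ∏ i : Fin n, |x - (f (Sum.inr i)).1|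
  have hdc : Continuous d := by
    refine continuous_finsetProd _ (fun i _ => ?_)
    fun_prop
  have hd0 : ∀ x, 0 ≤ d x := fun x => Finset.prod_nonneg (fun i _ => abs_nonneg _)
  have hdz : ∀ x, d x = 0 → ∃ i : Fin n, x = (f (Sum.inr i)).1 := by
    intro x h
    obtain ⟨i, _, hi⟩ := Finset.prod_eq_zero_iff.1 h
    exact ⟨i, sub_eq_zero.1 (abs_eq_zero.1 hi)⟩
  have hdi : ∀ i : Fin n, d (f (Sum.inr i)).1 = 0 := by
    intro i
    exact Finset.prod_eq_zero (Finset.mem_univ i) (by simp)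
  let U : ℝ × ℝ → ℝ × ℝ := fun z => (z.1, z.2 + d z.1)
  let L : ℝ × ℝ → ℝ × ℝ := fun z => (ψ z.1, -(z.2 + d (ψ z.1)))
  have hUc : Continuous U :=
    continuous_fst.prodMk (continuous_snd.add (hdc.comp continuous_fst))
  have hLc : Continuous L :=
    (hψc.comp continuous_fst).prodMk
      (continuous_snd.add (hdc.comp (hψc.comp continuous_fst))).neg
  have hUi : Function.Injective U := by
    intro z z' h
    have h1 : (U z).1 = (U z').1 := congrArg Prod.fst h
    have h2 : (U z).2 = (U z').2 := congrArg Prod.snd h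
    change z.1 = z'.1 at h1
    change z.2 + d z.1 = z'.2 + d z'.1 at h2
    rw [h1] at h2
    exact Prod.ext h1 (by linarith)
  have hLi : Function.Injective L := by
    intro z z' h
    have h1 : (L z).1 = (L z').1 := congrArg Prod.fst h
    have h2 : (L z).2 = (L z').2 := congrArg Prod.snd h
    change ψ z.1 = ψ z'.1 at h1
    change -(z.2 + d (ψ z.1)) = -(z'.2 + d (ψ z'.1)) at h2
    rw [h1] at h2
    exact Prod.ext (hψm.injective h1) (by linarith)
  have star : ∀ z z' : ℝ × ℝ, 0 ≤ z.2 → 0 ≤ z'.2 → U z = L z' →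
      ∃ i : Fin n, z = f (Sum.inr i) ∧ z' = f' (Sum.inr i) := by
    intro z z' hz hz' h
    have h1 : (U z).1 = (L z').1 := congrArg Prod.fst h
    have h2 : (U z).2 = (L z').2 := congrArg Prod.snd h
    change z.1 = ψ z'.1 at h1
    change z.2 + d z.1 = -(z'.2 + d (ψ z'.1)) at h2
    have h3 := hd0 z.1
    have h4 := hd0 (ψ z'.1)
    obtain ⟨i, hi⟩ := hdz z.1 (by linarith)
    refine ⟨i, ?_, ?_⟩
    · refine Prod.ext hi ?_
      rw [hf0 i]
      linarith
    · refine Prod.ext ?_ ?_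
      · apply hψm.injective
        rw [← h1, hi, hψ i]
      · rw [hf0' i]
        linarith
  have hUL : ∀ i : Fin n, U (f (Sum.inr i)) = L (f' (Sum.inr i)) := by
    intro i
    refine Prod.ext ?_ ?_
    · exact (hψ i).symm
    · change (f (Sum.inr i)).2 + d (f (Sum.inr i)).1 =
        -((f' (Sum.inr i)).2 + d (ψ (f' (Sum.inr i)).1))
      rw [hψ i, hdi i, hf0 i, hf0' i]
      norm_num
  let e1 : V ⊕ Fin n → (V ⊕ W) ⊕ Fin n := Sum.map Sum.inl id
  let e2 : W ⊕ Fin n → (V ⊕ W) ⊕ Fin n := Sum.map Sum.inr id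
  have i1 : Function.Injective e1 :=
    Sum.map_injective.2 ⟨Sum.inl_injective, Function.injective_id⟩
  have i2 : Function.Injective e2 :=
    Sum.map_injective.2 ⟨Sum.inr_injective, Function.injective_id⟩
  have hcov : ∀ u : (V ⊕ W) ⊕ Fin n, (∃ a, e1 a = u) ∨ ∃ a, e2 a = u := by
    rintro ((v | w) | i)
    · exact Or.inl ⟨Sum.inl v, rfl⟩
    · exact Or.inr ⟨Sum.inl w, rfl⟩
    · exact Or.inl ⟨Sum.inr i, rfl⟩
  let g : (V ⊕ W) ⊕ Fin n → ℝ × ℝ :=
    Sum.elim (Sum.elim (fun v => U (f (Sum.inl v))) (fun w => L (f' (Sum.inl w))))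
      (fun i => U (f (Sum.inr i)))
  have g1 : ∀ a, g (e1 a) = U (f a) := by
    rintro (a | a) <;> rfl
  have g2 : ∀ a, g (e2 a) = L (f' a) := by
    rintro (a | a)
    · rfl
    · exact hUL a
  have mix : ∀ (a : V ⊕ Fin n) (b : W ⊕ Fin n), U (f a) = L (f' b) → e1 a = e2 b := by
    intro a b h
    obtain ⟨i, h1, h2⟩ := star _ _ (hf a) (hf' b) h
    rw [hfi h1, hfi' h2]
    rfl
  have hgi : Function.Injective g := by
    intro u v h
    rcases hcov u with ⟨a, rfl⟩ | ⟨a, rfl⟩ <;> rcases hcov v with ⟨b, rfl⟩ | ⟨b, rfl⟩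
    · rw [g1, g1] at h
      rw [hfi (hUi h)]
    · rw [g1, g2] at h
      exact mix a b h
    · rw [g2, g1] at h
      exact (mix b a h.symm).symm
    · rw [g2, g2] at h
      rw [hfi' (hLi h)]
  have hΓ : ∀ u v, ∃ c : ℝ → ℝ × ℝ, (glue N M).Adj u v →
      (∃ a b, N.Adj a b ∧ e1 a = u ∧ e1 b = v ∧ ∀ t, c t = U (γ a b t)) ∨
      (∃ a b, M.Adj a b ∧ e2 a = u ∧ e2 b = v ∧ ∀ t, c t = L (γ' a b t)) := by
    intro u v
    by_cases h : (glue N M).Adj u v
    · rcases h with h | h
      · rw [SimpleGraph.map_adj'] at h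
        obtain ⟨_, a, b, hab, ha, hb⟩ := h
        exact ⟨fun t => U (γ a b t), fun _ => Or.inl ⟨a, b, hab, ha, hb, fun _ => rfl⟩⟩
      · rw [SimpleGraph.map_adj'] at h
        obtain ⟨_, a, b, hab, ha, hb⟩ := h
        exact ⟨fun t => L (γ' a b t), fun _ => Or.inr ⟨a, b, hab, ha, hb, fun _ => rfl⟩⟩
    · exact ⟨fun _ => 0, fun h' => absurd h' h⟩
  choose Γ hΓ using hΓ
  refine ⟨g, Γ, hgi, ?_, ?_⟩
  · intro u v huv
    rcases hΓ u v huv with ⟨a, b, hab, rfl, rfl, hc⟩ | ⟨a, b, hab, rfl, rfl, hc⟩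
    · obtain ⟨h1, h2, h3, h4, h5⟩ := hfe a b hab
      have hfun : Γ (e1 a) (e1 b) = fun t => U (γ a b t) := funext hc
      rw [hfun]
      refine ⟨hUc.comp_continuousOn h1, fun t ht t' ht' h => h2 ht ht' (hUi h), ?_, ?_, ?_⟩
      · rw [g1]
        exact congrArg U h3
      · rw [g1]
        exact congrArg U h4
      · intro t ht w hw
        change U (γ a b t) = g w at hw
        rcases hcov w with ⟨x, rfl⟩ | ⟨x, rfl⟩
        · rw [g1] at hw
          exact h5 t ht x (hUi hw)
        · rw [g2] at hw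
          obtain ⟨i, h6, _⟩ := star _ _ (hγ a b hab t ⟨ht.1.le, ht.2.le⟩) (hf' x) hw
          exact h5 t ht _ h6
    · obtain ⟨h1, h2, h3, h4, h5⟩ := hfe' a b hab
      have hfun : Γ (e2 a) (e2 b) = fun t => L (γ' a b t) := funext hc
      rw [hfun]
      refine ⟨hLc.comp_continuousOn h1, fun t ht t' ht' h => h2 ht ht' (hLi h), ?_, ?_, ?_⟩
      · rw [g2]
        exact congrArg L h3
      · rw [g2]
        exact congrArg L h4
      · intro t ht w hw
        change L (γ' a b t) = g w at hw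
        rcases hcov w with ⟨x, rfl⟩ | ⟨x, rfl⟩
        · rw [g1] at hw
          obtain ⟨i, _, h6⟩ := star _ _ (hf x) (hγ' a b hab t ⟨ht.1.le, ht.2.le⟩) hw.symm
          exact h5 t ht _ h6
        · rw [g2] at hw
          exact h5 t ht x (hLi hw)
  · intro u v u' v' huv huv' hne t ht t' ht' h
    rcases hΓ u v huv with ⟨a, b, hab, rfl, rfl, hc⟩ | ⟨a, b, hab, rfl, rfl, hc⟩ <;>
      rcases hΓ u' v' huv' with ⟨a', b', hab', rfl, rfl, hc'⟩ | ⟨a', b', hab', rfl, rfl, hc'⟩
    · rw [hc, hc'] at h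
      refine hfd a b a' b' hab hab' ?_ t ht t' ht' (hUi h)
      intro hs
      apply hne
      rw [← Sym2.map_mk, ← Sym2.map_mk, hs]
    · rw [hc, hc'] at h
      obtain ⟨i, h6, _⟩ := star _ _ (hγ a b hab t ⟨ht.1.le, ht.2.le⟩)
        (hγ' a' b' hab' t' ⟨ht'.1.le, ht'.2.le⟩) h
      exact (hfe a b hab).2.2.2.2 t ht _ h6
    · rw [hc, hc'] at h
      obtain ⟨i, h6, _⟩ := star _ _ (hγ a' b' hab' t' ⟨ht'.1.le, ht'.2.le⟩)
        (hγ' a b hab t ⟨ht.1.le, ht.2.le⟩) h.symm
      exact (hfe a' b' hab').2.2.2.2 t' ht' _ h6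
    · rw [hc, hc'] at h
      refine hfd' a b a' b' hab hab' ?_ t ht t' ht' (hLi h)
      intro hs
      apply hne
      rw [← Sym2.map_mk, ← Sym2.map_mk, hs]

end Pool.Agent.D0H24.BG
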