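import Mathlib

/-!
Vectors in a space of dimension `r`: shares of pairs with a positive inner product.
-/

set_option autoImplicit false

namespace Pool.Agent.D0H24.BG

open Finset

theorem swap4 {J K : Type} [Fintype J] [Fintype K] (w : J → ℝ) (u : J → K → ℝ) :
    ∑ i, ∑ j, w i * w j * (∑ k, u i k * u j k) ^ 2 =
      ∑ k, ∑ l, (∑ i, w i * (u i k * u i l)) ^ 2 := by
  have h1 : ∀ i j, w i * w j * (∑ k, u i k * u j k) ^ 2 =
      ∑ k, ∑ l, (w i * (u i k * u i l)) * (w j * (u j k * u j l)) := by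
    intro i j
    rw [sq, Finset.sum_mul_sum, Finset.mul_sum]
    refine Finset.sum_congr rfl (fun k _ => ?_)
    rw [Finset.mul_sum]
    exact Finset.sum_congr rfl (fun l _ => by ring)
  have h2 : ∀ k l, (∑ i, w i * (u i k * u i l)) ^ 2 =
      ∑ i, ∑ j, (w i * (u i k * u i l)) * (w j * (u j k * u j l)) := by
    intro k l
    rw [sq, Finset.sum_mul_sum]
  rw [Finset.sum_congr rfl (fun i _ => Finset.sum_congr rfl (fun j _ => h1 i j)),
    Finset.sum_congr rfl (fun k _ => Finset.sum_congr rfl (fun l _ => h2 k l))]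
  calc ∑ i, ∑ j, ∑ k, ∑ l, (w i * (u i k * u i l)) * (w j * (u j k * u j l))
      = ∑ i, ∑ k, ∑ j, ∑ l, (w i * (u i k * u i l)) * (w j * (u j k * u j l)) :=
        Finset.sum_congr rfl (fun i _ => Finset.sum_comm)
    _ = ∑ k, ∑ i, ∑ j, ∑ l, (w i * (u i k * u i l)) * (w j * (u j k * u j l)) := Finset.sum_comm
    _ = ∑ k, ∑ i, ∑ l, ∑ j, (w i * (u i k * u i l)) * (w j * (u j k * u j l)) :=
        Finset.sum_congr rfl (fun k _ => Finset.sum_congr rfl (fun i _ => Finset.sum_comm))
    _ = ∑ k, ∑ l, ∑ i, ∑ j, (w i * (u i k * u i l)) * (w j * (u j k * u j l)) :=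
        Finset.sum_congr rfl (fun k _ => Finset.sum_comm)

/-- the average of the squares of the inner products of unit vectors is at least `1 / r` -/
theorem avg_sq {J K : Type} [Fintype J] [Fintype K] (w : J → ℝ) (hw1 : ∑ i, w i = 1)
    (u : J → K → ℝ) (hu : ∀ i, ∑ k, u i k ^ 2 = 1) :
    1 ≤ (Fintype.card K : ℝ) * ∑ i, ∑ j, w i * w j * (∑ k, u i k * u j k) ^ 2 := by
  classical
  rw [swap4]
  have h1 : ∑ k, ∑ i, w i * (u i k * u i k) = 1 := by
    rw [Finset.sum_comm]
    rw [← hw1]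
    refine Finset.sum_congr rfl (fun i _ => ?_)
    rw [← Finset.mul_sum]
    have := hu i
    simp_rw [sq] at this
    rw [this, mul_one]
  have h2 := sq_sum_le_card_mul_sum_sq (s := (Finset.univ : Finset K))
    (f := fun k => ∑ i, w i * (u i k * u i k))
  rw [h1, Finset.card_univ] at h2
  have h3 : ∑ k, (∑ i, w i * (u i k * u i k)) ^ 2 ≤ ∑ k, ∑ l, (∑ i, w i * (u i k * u i l)) ^ 2 := by
    refine Finset.sum_le_sum (fun k _ => ?_)
    exact Finset.single_le_sum (f := fun l => (∑ i, w i * (u i k * u i l)) ^ 2)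
      (fun l _ => sq_nonneg _) (Finset.mem_univ k)
  have h4 : (0 : ℝ) ≤ (Fintype.card K : ℝ) := Nat.cast_nonneg _
  calc (1 : ℝ) = 1 ^ 2 := by norm_num
    _ ≤ (Fintype.card K : ℝ) * ∑ k, (∑ i, w i * (u i k * u i k)) ^ 2 := h2
    _ ≤ _ := mul_le_mul_of_nonneg_left h3 h4

/-- the average of the inner products is at least the square of the average component along a
vector `e` of length at most one -/
theorem avg_lin {J K : Type} [Fintype J] [Fintype K] (w : J → ℝ)
    (u : J → K → ℝ) (e : K → ℝ) (he : ∑ k, e k ^ 2 ≤ 1) :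
    (∑ i, w i * ∑ k, u i k * e k) ^ 2 ≤ ∑ i, ∑ j, w i * w j * ∑ k, u i k * u j k := by
  classical
  have h1 : ∑ i, ∑ j, w i * w j * ∑ k, u i k * u j k = ∑ k, (∑ i, w i * u i k) ^ 2 := by
    have h2 : ∀ k, (∑ i, w i * u i k) ^ 2 = ∑ i, ∑ j, w i * w j * (u i k * u j k) := by
      intro k
      rw [sq, Finset.sum_mul_sum]
      exact Finset.sum_congr rfl (fun i _ => Finset.sum_congr rfl (fun j _ => by ring))
    rw [Finset.sum_congr rfl (fun k _ => h2 k)]
    calc ∑ i, ∑ j, w i * w j * ∑ k, u i k * u j k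
        = ∑ i, ∑ j, ∑ k, w i * w j * (u i k * u j k) :=
          Finset.sum_congr rfl (fun i _ => Finset.sum_congr rfl (fun j _ => Finset.mul_sum _ _ _))
      _ = ∑ i, ∑ k, ∑ j, w i * w j * (u i k * u j k) :=
          Finset.sum_congr rfl (fun i _ => Finset.sum_comm)
      _ = _ := Finset.sum_comm
  have h3 : ∑ i, w i * ∑ k, u i k * e k = ∑ k, (∑ i, w i * u i k) * e k := by
    calc ∑ i, w i * ∑ k, u i k * e k = ∑ i, ∑ k, w i * u i k * e k :=
          Finset.sum_congr rfl (fun i _ => by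
            rw [Finset.mul_sum]
            exact Finset.sum_congr rfl (fun k _ => by ring))
      _ = ∑ k, ∑ i, w i * u i k * e k := Finset.sum_comm
      _ = _ := Finset.sum_congr rfl (fun k _ => by rw [Finset.sum_mul])
  rw [h1, h3]
  have h4 := Finset.sum_mul_sq_le_sq_mul_sq Finset.univ (fun k => ∑ i, w i * u i k) e
  have h5 : 0 ≤ ∑ k, (∑ i, w i * u i k) ^ 2 := Finset.sum_nonneg (fun _ _ => sq_nonneg _)
  calc (∑ k, (∑ i, w i * u i k) * e k) ^ 2
      ≤ (∑ k, (∑ i, w i * u i k) ^ 2) * ∑ k, e k ^ 2 := h4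
    _ ≤ (∑ k, (∑ i, w i * u i k) ^ 2) * 1 := mul_le_mul_of_nonneg_left he h5
    _ = _ := mul_one _

open Classical in
/-- **Share of pairs with a large inner product**, for unit vectors in a space of dimension `r` -/
theorem share_unit {J K : Type} [Fintype J] [Fintype K] (w : J → ℝ) (hw : ∀ i, 0 ≤ w i)
    (hw1 : ∑ i, w i = 1) (u : J → K → ℝ) (hu : ∀ i, ∑ k, u i k ^ 2 = 1)
    (e : K → ℝ) (he : ∑ k, e k ^ 2 ≤ 1) (t : ℝ) (ht : 0 ≤ t) :
    ((∑ i, w i * ∑ k, u i k * e k) ^ 2 + 1 / (Fintype.card K : ℝ) - t - t ^ 2) / 2 ≤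
      ∑ i, ∑ j, if t < ∑ k, u i k * u j k then w i * w j else 0 := by
  set x : J → J → ℝ := fun i j => ∑ k, u i k * u j k with hx
  have hx1 : ∀ i j, |x i j| ≤ 1 := by
    intro i j
    have h := Finset.sum_mul_sq_le_sq_mul_sq Finset.univ (u i) (u j)
    rw [hu i, hu j, mul_one] at h
    exact (sq_le_one_iff_abs_le_one _).1 h
  have h1 : ∀ i j, w i * w j * x i j + w i * w j * x i j ^ 2 ≤
      2 * (if t < x i j then w i * w j else 0) + (t + t ^ 2) * (w i * w j) := by
    intro i j
    have hww : 0 ≤ w i * w j := mul_nonneg (hw i) (hw j)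
    obtain ⟨ha, hb⟩ := abs_le.1 (hx1 i j)
    by_cases h : t < x i j
    · rw [if_pos h]
      have h3 : x i j + x i j ^ 2 ≤ 2 + (t + t ^ 2) := by nlinarith
      nlinarith [mul_le_mul_of_nonneg_left h3 hww]
    · rw [if_neg h]
      push Not at h
      have h3 : x i j + x i j ^ 2 ≤ t + t ^ 2 := by
        by_cases h0 : 0 ≤ x i j
        · nlinarith
        · push Not at h0
          nlinarith
      nlinarith [mul_le_mul_of_nonneg_left h3 hww]
  have h2 : ∑ i, ∑ j, (w i * w j * x i j + w i * w j * x i j ^ 2) ≤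
      ∑ i, ∑ j, (2 * (if t < x i j then w i * w j else 0) + (t + t ^ 2) * (w i * w j)) :=
    Finset.sum_le_sum (fun i _ => Finset.sum_le_sum (fun j _ => h1 i j))
  simp_rw [Finset.sum_add_distrib, ← Finset.mul_sum] at h2
  simp only [hw1, mul_one] at h2
  have h4 := avg_lin w u e he
  have h5 := avg_sq w hw1 u hu
  have h6 : 1 / (Fintype.card K : ℝ) ≤ ∑ i, ∑ j, w i * w j * x i j ^ 2 := by
    have hc : 0 ≤ (Fintype.card K : ℝ) := Nat.cast_nonneg _
    rcases hc.eq_or_lt with h0 | h0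
    · rw [← h0, zero_mul] at h5
      linarith
    · rw [div_le_iff₀ h0, mul_comm]
      exact h5
  have h7 : (∑ i, w i * ∑ k, u i k * e k) ^ 2 ≤ ∑ i, ∑ j, w i * w j * x i j := h4
  linarith

open scoped MatrixOrder in
/-- a positive semidefinite form is a Gram matrix -/
theorem factor {K : Type} [Fintype K] [DecidableEq K] (G : K → K → ℝ) (hsymm : ∀ k l, G k l = G l k)
    (hG : ∀ x : K → ℝ, 0 ≤ ∑ k, ∑ l, x k * x l * G k l) :
    ∃ B : K → K → ℝ, ∀ k l, G k l = ∑ m, B m k * B m l := by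
  have hA : (Matrix.of G : Matrix K K ℝ).PosSemidef := by
    refine Matrix.PosSemidef.of_dotProduct_mulVec_nonneg ?_ ?_
    · ext k l
      rw [Matrix.conjTranspose_apply]
      simp only [Matrix.of_apply, star_trivial]
      exact hsymm l k
    · intro x
      have h := hG x
      refine h.trans_eq ?_
      simp only [dotProduct, Matrix.mulVec, Matrix.of_apply, star_trivial, Finset.mul_sum]
      exact Finset.sum_congr rfl (fun k _ => Finset.sum_congr rfl (fun l _ => by ring))
  obtain ⟨B, hB⟩ := CStarAlgebra.nonneg_iff_eq_star_mul_self.mp hA.nonneg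
  refine ⟨fun m k => B m k, fun k l => ?_⟩
  have h := congrFun (congrFun hB k) l
  rw [Matrix.of_apply] at h
  rw [h, Matrix.star_eq_conjTranspose, Matrix.mul_apply]
  simp [Matrix.conjTranspose_apply]

open Classical in
/-- the same for vectors which are not zero -/
theorem share_gram {J K : Type} [Fintype J] [Fintype K] (w : J → ℝ) (hw : ∀ i, 0 ≤ w i)
    (hw1 : ∑ i, w i = 1) (v : J → K → ℝ) (hv : ∀ i, 0 < ∑ k, v i k * v i k) (e : K → ℝ)
    (t : ℝ) (ht : 0 ≤ t) :
    ((∑ i, w i * ((∑ k, v i k * e k) / √((∑ k, v i k * v i k) * ∑ k, e k * e k))) ^ 2 +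
      1 / (Fintype.card K : ℝ) - t - t ^ 2) / 2 ≤
      ∑ i, ∑ j, if t * √((∑ k, v i k * v i k) * ∑ k, v j k * v j k) < ∑ k, v i k * v j k
        then w i * w j else 0 := by
  have hS : ∀ i, 0 < √(∑ k, v i k * v i k) := fun i => Real.sqrt_pos.2 (hv i)
  have hu : ∀ i, ∑ k, (v i k / √(∑ k, v i k * v i k)) ^ 2 = 1 := by
    intro i
    simp_rw [div_pow, ← Finset.sum_div, sq (v i _)]
    rw [Real.sq_sqrt (hv i).le]
    exact div_self (hv i).ne'
  have he0 : 0 ≤ ∑ k, e k * e k := Finset.sum_nonneg (fun k _ => mul_self_nonneg _)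
  have he : ∑ k, (e k / √(∑ k, e k * e k)) ^ 2 ≤ 1 := by
    simp_rw [div_pow, ← Finset.sum_div, sq (e _)]
    rw [Real.sq_sqrt he0]
    exact div_self_le_one _
  have h := share_unit w hw hw1 (fun i k => v i k / √(∑ k, v i k * v i k)) hu
    (fun k => e k / √(∑ k, e k * e k)) he t ht
  have h1 : ∀ i, ∑ k, v i k / √(∑ k, v i k * v i k) * (e k / √(∑ k, e k * e k)) =
      (∑ k, v i k * e k) / √((∑ k, v i k * v i k) * ∑ k, e k * e k) := by
    intro i
    rw [Real.sqrt_mul (hv i).le, Finset.sum_div]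
    exact Finset.sum_congr rfl (fun k _ => by rw [div_mul_div_comm])
  have h2 : ∀ i j, ∑ k, v i k / √(∑ k, v i k * v i k) * (v j k / √(∑ k, v j k * v j k)) =
      (∑ k, v i k * v j k) / √((∑ k, v i k * v i k) * ∑ k, v j k * v j k) := by
    intro i j
    rw [Real.sqrt_mul (hv i).le, Finset.sum_div]
    exact Finset.sum_congr rfl (fun k _ => by rw [div_mul_div_comm])
  simp_rw [h1, h2] at h
  refine h.trans (le_of_eq ?_)
  refine Finset.sum_congr rfl (fun i _ => Finset.sum_congr rfl (fun j _ => ?_))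
  have h3 : 0 < √((∑ k, v i k * v i k) * ∑ k, v j k * v j k) := by
    rw [Real.sqrt_mul (hv i).le]
    exact mul_pos (hS i) (hS j)
  simp only [lt_div_iff₀ h3]

open Classical in
/-- the same without assumptions -/
theorem share_weak {J K : Type} [Fintype J] [Fintype K] [Nonempty K] (w : J → ℝ)
    (hw : ∀ i, 0 ≤ w i) (hw1 : ∑ i, w i = 1) (v : J → K → ℝ) :
    1 / (2 * (Fintype.card K : ℝ)) ≤
      ∑ i, ∑ j, if 0 ≤ ∑ k, v i k * v j k then w i * w j else 0 := by
  obtain ⟨k0⟩ := ‹Nonempty K›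
  have hS0 : ∀ i, 0 ≤ ∑ k, v i k * v i k := fun i => Finset.sum_nonneg (fun k _ => mul_self_nonneg _)
  let u : J → K → ℝ := fun i k => if ∑ k, v i k * v i k = 0 then (if k = k0 then 1 else 0)
    else v i k / √(∑ k, v i k * v i k)
  have hu : ∀ i, ∑ k, u i k ^ 2 = 1 := by
    intro i
    by_cases h0 : ∑ k, v i k * v i k = 0
    · simp [u, h0]
    · simp only [u, if_neg h0]
      simp_rw [div_pow, ← Finset.sum_div, sq (v i _)]
      rw [Real.sq_sqrt (hS0 i)]
      exact div_self h0
  have h := share_unit w hw hw1 u hu (fun _ => 0) (by simp) 0 le_rfl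
  have h1 : 1 / (2 * (Fintype.card K : ℝ)) =
      ((∑ i, w i * ∑ k, u i k * (0 : ℝ)) ^ 2 + 1 / (Fintype.card K : ℝ) - 0 - 0 ^ 2) / 2 := by
    simp only [mul_zero, Finset.sum_const_zero]
    rw [one_div, one_div, mul_inv]
    ring
  rw [h1]
  refine h.trans (Finset.sum_le_sum (fun i _ => Finset.sum_le_sum (fun j _ => ?_)))
  have hww : 0 ≤ w i * w j := mul_nonneg (hw i) (hw j)
  have hz : ∀ i, ∑ k, v i k * v i k = 0 → ∀ k, v i k = 0 := by
    intro i h0 k
    have h2 := (Finset.sum_eq_zero_iff_of_nonneg (fun k _ => mul_self_nonneg (v i k))).1 h0 k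
      (Finset.mem_univ k)
    exact mul_self_eq_zero.1 h2
  by_cases hp : 0 ≤ ∑ k, v i k * v j k
  · rw [if_pos hp]
    split_ifs
    · exact le_rfl
    · exact hww
  · have hi : ∑ k, v i k * v i k ≠ 0 := by
      intro h0
      apply hp
      simp [hz i h0]
    have hj : ∑ k, v j k * v j k ≠ 0 := by
      intro h0
      apply hp
      simp [hz j h0]
    have hneg : ¬ 0 < ∑ k, u i k * u j k := by
      intro h3
      apply hp
      simp only [u, if_neg hi, if_neg hj] at h3
      have h4 : ∑ k, v i k / √(∑ k, v i k * v i k) * (v j k / √(∑ k, v j k * v j k)) =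
          (∑ k, v i k * v j k) / (√(∑ k, v i k * v i k) * √(∑ k, v j k * v j k)) := by
        rw [Finset.sum_div]
        exact Finset.sum_congr rfl (fun k _ => by rw [div_mul_div_comm])
      rw [h4] at h3
      have h5 : 0 < √(∑ k, v i k * v i k) * √(∑ k, v j k * v j k) :=
        mul_pos (Real.sqrt_pos.2 (lt_of_le_of_ne (hS0 i) (Ne.symm hi)))
          (Real.sqrt_pos.2 (lt_of_le_of_ne (hS0 j) (Ne.symm hj)))
      have h6 := (lt_div_iff₀ h5).1 h3
      linarith
    rw [if_neg hp, if_neg hneg]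

/-- **Finitely many classes**: the vectors of a space of dimension `r` fall into `r 2 ^ r` classes such
that vectors in the same class have an inner product at least `1 / r` times the product of their lengths. -/
theorem classes (K : Type) [Fintype K] [Nonempty K] :
    ∃ cls : (K → ℝ) → K × (K → Bool), ∀ u v, cls u = cls v →
      √((∑ k, u k * u k) * ∑ k, v k * v k) / (Fintype.card K : ℝ) ≤ ∑ k, u k * v k := by
  classical
  have hm : ∀ u : K → ℝ, ∃ m, ∀ k, |u k| ≤ |u m| := fun u => by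
    obtain ⟨m, _, hm⟩ := Finset.univ.exists_max_image (fun k => |u k|) Finset.univ_nonempty
    exact ⟨m, fun k => hm k (Finset.mem_univ k)⟩
  choose m hm using hm
  refine ⟨fun u => (m u, fun k => decide (0 ≤ u k)), fun u v h => ?_⟩
  have h1 : m u = m v := congrArg Prod.fst h
  have h2 : ∀ k, (0 ≤ u k ↔ 0 ≤ v k) := fun k => by
    have h3 := congrFun (congrArg Prod.snd h) k
    exact decide_eq_decide.1 h3
  have h3 : ∀ k, u k * v k = |u k| * |v k| := by
    intro k
    by_cases hk : 0 ≤ u k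
    · rw [abs_of_nonneg hk, abs_of_nonneg ((h2 k).1 hk)]
    · have hk' : ¬ 0 ≤ v k := fun h => hk ((h2 k).2 h)
      push Not at hk hk'
      rw [abs_of_neg hk, abs_of_neg hk']
      ring
  have hr : (0 : ℝ) < Fintype.card K := by exact_mod_cast Fintype.card_pos
  have h4 : |u (m u)| * |v (m u)| ≤ ∑ k, u k * v k := by
    rw [Finset.sum_congr rfl (fun k _ => h3 k)]
    exact Finset.single_le_sum (f := fun k => |u k| * |v k|) (fun k _ => by positivity)
      (Finset.mem_univ (m u))
  have h5 : ∀ u : K → ℝ, ∑ k, u k * u k ≤ Fintype.card K * |u (m u)| ^ 2 := by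
    intro u
    calc ∑ k, u k * u k ≤ ∑ _k : K, |u (m u)| ^ 2 := by
          refine Finset.sum_le_sum (fun k _ => ?_)
          rw [← sq, ← sq_abs]
          exact pow_le_pow_left₀ (abs_nonneg _) (hm u k) 2
      _ = _ := by rw [Finset.sum_const, Finset.card_univ, nsmul_eq_mul]
  have h6 : √((∑ k, u k * u k) * ∑ k, v k * v k) ≤
      Fintype.card K * (|u (m u)| * |v (m u)|) := by
    rw [Real.sqrt_le_iff]
    refine ⟨by positivity, ?_⟩
    have h7 := mul_le_mul (h5 u) (h5 v) (Finset.sum_nonneg (fun k _ => mul_self_nonneg (v k)))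
      (by positivity)
    refine h7.trans_eq ?_
    rw [← h1]
    ring
  rw [div_le_iff₀ hr]
  calc _ ≤ Fintype.card K * (|u (m u)| * |v (m u)|) := h6
    _ = (|u (m u)| * |v (m u)|) * Fintype.card K := mul_comm _ _
    _ ≤ _ := mul_le_mul_of_nonneg_right h4 hr.le

open Classical in
/-- at most `2 r` vectors which are not zero have pairwise inner products `≤ 0` -/
theorem many {J K : Type} [Fintype J] [Fintype K] (v : J → K → ℝ)
    (hv : ∀ i, 0 < ∑ k, v i k * v i k) (hJ : 2 * Fintype.card K < Fintype.card J) :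
    ∃ i j, i ≠ j ∧ 0 < ∑ k, v i k * v j k := by
  by_contra hcon
  push Not at hcon
  have hN : (0 : ℝ) < Fintype.card J := by
    have : 0 < Fintype.card J := by omega
    exact_mod_cast this
  have h := share_gram (fun _ : J => 1 / (Fintype.card J : ℝ)) (fun _ => by positivity) (by
    rw [Finset.sum_const, Finset.card_univ, nsmul_eq_mul, mul_one_div, div_self hN.ne'])
    v hv (fun _ => 0) 0 le_rfl
  have h1 : ∀ i, ∑ j, (if 0 * √((∑ k, v i k * v i k) * ∑ k, v j k * v j k) < ∑ k, v i k * v j k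
      then 1 / (Fintype.card J : ℝ) * (1 / (Fintype.card J : ℝ)) else 0) =
      1 / (Fintype.card J : ℝ) * (1 / (Fintype.card J : ℝ)) := by
    intro i
    rw [Finset.sum_eq_single i]
    · rw [if_pos]
      rw [zero_mul]
      exact hv i
    · intro j _ hji
      rw [if_neg]
      rw [zero_mul, not_lt]
      exact hcon i j (Ne.symm hji)
    · intro h'
      exact absurd (Finset.mem_univ i) h'
  rw [Finset.sum_congr rfl (fun i _ => h1 i)] at h
  simp only [mul_zero, Finset.sum_const_zero, zero_div] at h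
  have h2 : (Fintype.card J : ℝ) * (1 / (Fintype.card J : ℝ) * (1 / (Fintype.card J : ℝ))) =
      1 / (Fintype.card J : ℝ) := by
    field_simp
  have h2' : ∑ _i : J, 1 / (Fintype.card J : ℝ) * (1 / (Fintype.card J : ℝ)) =
      1 / (Fintype.card J : ℝ) := by
    rw [Finset.sum_const, Finset.card_univ, nsmul_eq_mul]
    exact h2
  rw [h2'] at h
  rcases Nat.eq_zero_or_pos (Fintype.card K) with h0 | h0
  · have : IsEmpty K := Fintype.card_eq_zero_iff.1 h0
    have hJ' : Nonempty J := Fintype.card_pos_iff.1 (by omega)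
    obtain ⟨i⟩ := hJ'
    have := hv i
    simp at this
  · have h3 : (0 : ℝ) < Fintype.card K := by exact_mod_cast h0
    have h4 : (2 * Fintype.card K : ℝ) < Fintype.card J := by exact_mod_cast hJ
    have h5 : 1 / (Fintype.card J : ℝ) < 1 / (2 * Fintype.card K : ℝ) :=
      one_div_lt_one_div_of_lt (by positivity) h4
    have h6 : 1 / (2 * Fintype.card K : ℝ) = (0 ^ 2 + 1 / (Fintype.card K : ℝ) - 0 - 0 ^ 2) / 2 := by
      rw [one_div, one_div, mul_inv]
      ring
    rw [h6] at h5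
    exact absurd h (not_le.2 h5)

end Pool.Agent.D0H24.BG
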