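import Pool.Agent.H207R2.BL.Chrom
import Pool.Agent.D0H24.BG.Rank

/-!
The values at `q ≥ 4` of the chromatic polynomials of graphs glued from crossless halves are the inner
products of vectors indexed by the noncrossing partitions of the boundary.
-/

set_option autoImplicit false
set_option linter.unusedSectionVars false

namespace Pool.Agent.D0H24.BG

open Polynomial Pool.Agent.H207R2.BL

/-- the noncrossing partitions of `0, …, n-1` -/
abbrev NCP (n : ℕ) : Type := {ρ : Setoid (Fin n) // NonCrossing ρ}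

theorem finite_setoid (n : ℕ) : Finite (Setoid (Fin n)) := by
  refine Finite.of_injective (fun (ρ : Setoid (Fin n)) (x y : Fin n) => ρ x y) ?_
  intro ρ σ h
  ext x y
  exact iff_of_eq (congrFun (congrFun h x) y)

theorem finite_ncp (n : ℕ) : Finite (NCP n) := by
  have := finite_setoid n
  infer_instance

theorem bot_nc (n : ℕ) : NonCrossing (⊥ : Setoid (Fin n)) := by
  intro a b c d hab hbc _ hac _
  have h : a = c := hac
  rw [h] at hab
  exact absurd (hab.trans hbc) (lt_irrefl _)

theorem rep {n : ℕ} {J : Type*} (V : J → Type) [∀ i, Finite (V i)]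
    (N : ∀ i, SimpleGraph (V i ⊕ Fin n)) (hN : ∀ i, Crossless (N i))
    (p : J → J → ℝ[X]) (hp : ∀ i j, IsChrom (glue (N i) (N j)) (p i j))
    (q : ℝ) (hq : 4 ≤ q) [Fintype (NCP n)] :
    ∃ v : J → NCP n → ℝ, ∀ i j, (p i j).eval q = ∑ k, v i k * v j k := by
  classical
  have : ∀ i, Fintype (V i) := fun i => Fintype.ofFinite _
  choose m hm using fun (i : J) (A : Finset (Sym2 (V i ⊕ Fin n))) => ext_count (comp A)
  -- expansion of `inner`
  have hinner : ∀ i k (c : Fin n → Fin k), Pool.Agent.H207R2.BL.inner (N i) k c =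
      ∑ A ∈ (N i).edgeFinset.powerset, (-1 : ℝ) ^ A.card * (k : ℝ) ^ (m i A) *
        ind (Setoid.comap Sum.inr (comp A)) c := by
    intro i k c
    unfold Pool.Agent.H207R2.BL.inner
    simp_rw [pr_expand]
    rw [Finset.sum_comm]
    refine Finset.sum_congr rfl (fun A _ => ?_)
    rw [← Finset.mul_sum, hm i A k c]
    ring
  -- the polynomials
  let P : J → J → ℝ[X] := fun i j =>
    ∑ A ∈ (N i).edgeFinset.powerset, ∑ B ∈ (N j).edgeFinset.powerset,
      C ((-1 : ℝ) ^ A.card * (-1) ^ B.card) *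
        X ^ (m i A + m j B + Nat.card (Quotient (Setoid.comap Sum.inr (comp A) ⊔
          Setoid.comap Sum.inr (comp B))))
  have hP : ∀ i j, p i j = P i j := by
    intro i j
    apply Polynomial.eq_of_infinite_eval_eq
    apply Set.infinite_of_injective_forall_mem (f := fun k : ℕ => (k : ℝ)) Nat.cast_injective
    intro k
    change (p i j).eval (k : ℝ) = (P i j).eval (k : ℝ)
    rw [hp i j k, card_glue]
    simp_rw [hinner, Finset.sum_mul_sum]
    rw [Finset.sum_comm]
    simp only [P, Polynomial.eval_finsetSum, Polynomial.eval_mul, Polynomial.eval_C,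
      Polynomial.eval_pow, Polynomial.eval_X]
    refine Finset.sum_congr rfl (fun A _ => ?_)
    rw [Finset.sum_comm]
    refine Finset.sum_congr rfl (fun B _ => ?_)
    rw [pow_add, pow_add, ← sum_ind, Finset.mul_sum, Finset.mul_sum]
    refine Finset.sum_congr rfl (fun c _ => ?_)
    ring
  obtain ⟨B, hB⟩ := factor (K := NCP n)
    (fun ρ σ => q ^ (Nat.card (Quotient (ρ.1 ⊔ σ.1)))) (by
      intro k l
      rw [sup_comm]) (by
      intro x
      exact gram n q hq (I := NCP n) Finset.univ x (fun ρ => ρ.1) (fun ρ _ => ρ.2))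
  have hnc : ∀ (i : J) (A : Finset (Sym2 (V i ⊕ Fin n))), ∃ ρ : NCP n,
      A ∈ (N i).edgeFinset.powerset → ρ.1 = Setoid.comap Sum.inr (comp A) := by
    intro i A
    by_cases h : A ∈ (N i).edgeFinset.powerset
    · refine ⟨⟨_, comap_nc (N i) (hN i) A ?_⟩, fun _ => rfl⟩
      have h1 := Finset.mem_powerset.1 h
      intro e he
      have h2 := h1 (Finset.mem_coe.1 he)
      simpa using h2
    · exact ⟨⟨⊥, bot_nc n⟩, fun h' => absurd h' h⟩
  choose ρ hρ using hnc
  refine ⟨fun i k => ∑ A ∈ (N i).edgeFinset.powerset,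
    (-1 : ℝ) ^ A.card * q ^ (m i A) * B k (ρ i A), fun i j => ?_⟩
  rw [hP i j]
  simp only [P, Polynomial.eval_finsetSum, Polynomial.eval_mul, Polynomial.eval_C,
      Polynomial.eval_pow, Polynomial.eval_X]
  simp_rw [Finset.sum_mul_sum]
  symm
  rw [Finset.sum_comm]
  refine Finset.sum_congr rfl (fun A hA => ?_)
  rw [Finset.sum_comm]
  refine Finset.sum_congr rfl (fun A' hA' => ?_)
  symm
  rw [pow_add, pow_add, ← hρ i A hA, ← hρ j A' hA']
  have h1 := hB (ρ i A) (ρ j A')
  rw [h1, Finset.mul_sum, Finset.mul_sum]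
  exact Finset.sum_congr rfl (fun k _ => by ring)

end Pool.Agent.D0H24.BG
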