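import Mathlib

/-!
Gram determinants of two and three vectors.
-/

set_option autoImplicit false

namespace Pool.Agent.D0H24.BG

open Finset

theorem two {K : Type} [Fintype K] (u v : K → ℝ) :
    (∑ k, u k * v k) ^ 2 ≤ (∑ k, u k * u k) * ∑ k, v k * v k := by
  have h := Finset.sum_mul_sq_le_sq_mul_sq Finset.univ u v
  simpa only [sq] using h

theorem three {K : Type} [Fintype K] (u v w : K → ℝ) :
    ((∑ k, u k * v k) * (∑ k, w k * w k) - (∑ k, u k * w k) * ∑ k, v k * w k) ^ 2 ≤
      ((∑ k, u k * u k) * (∑ k, w k * w k) - (∑ k, u k * w k) ^ 2) *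
        ((∑ k, v k * v k) * (∑ k, w k * w k) - (∑ k, v k * w k) ^ 2) := by
  set W := ∑ k, w k * w k with hW
  set a := ∑ k, u k * w k with ha
  set b := ∑ k, v k * w k with hb
  have h0 : 0 ≤ W := Finset.sum_nonneg (fun k _ => mul_self_nonneg _)
  have key : ∀ (x y : K → ℝ) (c d : ℝ),
      ∑ k, (x k * W - c * w k) * (y k * W - d * w k) =
        (∑ k, x k * y k) * W ^ 2 - d * W * (∑ k, x k * w k) - c * W * (∑ k, y k * w k) +
          c * d * W := by
    intro x y c d
    have h1 : ∀ k, (x k * W - c * w k) * (y k * W - d * w k) =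
        (x k * y k) * W ^ 2 - d * W * (x k * w k) - c * W * (y k * w k) + c * d * (w k * w k) := by
      intro k
      ring
    rw [Finset.sum_congr rfl (fun k _ => h1 k), Finset.sum_add_distrib, Finset.sum_sub_distrib,
      Finset.sum_sub_distrib, ← Finset.sum_mul, ← Finset.mul_sum, ← Finset.mul_sum,
      ← Finset.mul_sum]
  have h := two (fun k => u k * W - a * w k) (fun k => v k * W - b * w k)
  rw [key, key, key, ← ha, ← hb] at h
  rcases h0.eq_or_lt with hz | hz
  · have hw : ∀ k, w k = 0 := by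
      intro k
      have h2 := (Finset.sum_eq_zero_iff_of_nonneg (fun k _ => mul_self_nonneg (w k))).1 hz.symm k
        (Finset.mem_univ k)
      exact mul_self_eq_zero.1 h2
    have ha0 : a = 0 := by simp [ha, hw]
    have hb0 : b = 0 := by simp [hb, hw]
    rw [ha0, hb0, ← hz]
    simp
  · have e1 : (∑ k, u k * v k) * W ^ 2 - b * W * a - a * W * b + a * b * W =
        W * ((∑ k, u k * v k) * W - a * b) := by ring
    have e2 : (∑ k, u k * u k) * W ^ 2 - a * W * a - a * W * a + a * a * W =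
        W * ((∑ k, u k * u k) * W - a ^ 2) := by ring
    have e3 : (∑ k, v k * v k) * W ^ 2 - b * W * b - b * W * b + b * b * W =
        W * ((∑ k, v k * v k) * W - b ^ 2) := by ring
    rw [e1, e2, e3, mul_pow] at h
    have h3 : W ^ 2 * ((∑ k, u k * v k) * W - a * b) ^ 2 ≤
        W ^ 2 * (((∑ k, u k * u k) * W - a ^ 2) * ((∑ k, v k * v k) * W - b ^ 2)) := by
      refine h.trans_eq ?_
      ring
    exact le_of_mul_le_mul_left h3 (by positivity)

/-- a sufficient condition for a nonnegative inner product -/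
theorem crit {x a b k s s' : ℝ} (hk : 0 < k)
    (h : (x * k - s * s') ^ 2 ≤ (a * k - s ^ 2) * (b * k - s' ^ 2))
    (h1 : 0 ≤ s * s') (h2 : a * b * k ≤ s ^ 2 * b + s' ^ 2 * a) : 0 ≤ x := by
  have h3 : (x * k - s * s') ^ 2 ≤ (s * s') ^ 2 := by
    have h4 : (a * k - s ^ 2) * (b * k - s' ^ 2) =
        (s * s') ^ 2 - k * (s ^ 2 * b + s' ^ 2 * a - a * b * k) := by ring
    rw [h4] at h
    have h5 : 0 ≤ k * (s ^ 2 * b + s' ^ 2 * a - a * b * k) := mul_nonneg hk.le (by linarith)
    linarith
  have h6 := abs_le.1 (abs_le_of_sq_le_sq h3 h1)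
  by_contra hx
  push Not at hx
  have h7 : x * k < 0 := mul_neg_of_neg_of_pos hx hk
  linarith [h6.1]

end Pool.Agent.D0H24.BG
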